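import Pool.Agent.W544.PG.Defs5
import Pool.Agent.W392.PG.G1

/-! Project PG, part G1P: the coloured version of G1. -/

set_option autoImplicit false

open Matrix Finset Module

namespace Pool.Agent.W108.PG

open Pool.Agent.W544.PG Pool.Agent.W392.PG

noncomputable section

variable {n r k : ℕ}

/-- indicator of the pattern -/
def pat (c : Fin n → Fin r) (a : Fin k → Fin r) (J : Fin k → Fin n) : ℂ :=
  if ∀ j, c (J j) = a j then 1 else 0

theorem pat_pat (c : Fin n → Fin r) (a : Fin k → Fin r) (J : Fin k → Fin n) :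
    pat c a J * pat c a J = pat c a J := by
  unfold pat
  split_ifs <;> simp

theorem pat_conj (c : Fin n → Fin r) (a : Fin k → Fin r) (J : Fin k → Fin n) :
    (starRingEnd ℂ) (pat c a J) = pat c a J := by
  unfold pat
  split_ifs <;> simp

theorem supp_iff (c : Fin n → Fin r) (a : Fin k → Fin r) (s : (Fin k → Fin n) → ℂ) :
    Supp c a s ↔ ∀ J, pat c a J * s J = s J := by
  constructor
  · intro h J
    unfold pat
    split_ifs with h1
    · rw [one_mul]
    · rw [zero_mul]
      by_contra h2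
      exact h1 (h J fun h3 => h2 h3.symm)
  · intro h J hJ
    have h1 := h J
    unfold pat at h1
    split_ifs at h1 with h2
    · exact h2
    · rw [zero_mul] at h1
      exact absurd h1.symm hJ

/-- forms supported on the pattern -/
def suppS (c : Fin n → Fin r) (a : Fin k → Fin r) : Submodule ℂ ((Fin k → Fin n) → ℂ) where
  carrier := {s | ∀ J, pat c a J * s J = s J}
  zero_mem' := fun J => by simp
  add_mem' := by
    intro s t hs ht J
    rw [Pi.add_apply, mul_add, hs J, ht J]
  smul_mem' := by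
    intro z s hs J
    rw [Pi.smul_apply, smul_eq_mul, mul_left_comm, hs J]

theorem mem_suppS {c : Fin n → Fin r} {a : Fin k → Fin r} {s : (Fin k → Fin n) → ℂ} :
    s ∈ suppS c a ↔ ∀ J, pat c a J * s J = s J := Iff.rfl

/-- functions of the colours commute with the action -/
theorem act_col (c : Fin n → Fin r) (Z : Matrix (Fin n) (Fin n) ℂ) (hZ : BD c Z)
    (χ : (Fin k → Fin n) → ℂ) (hχ : ∀ J J', (∀ j, c (J j) = c (J' j)) → χ J = χ J')
    (s : (Fin k → Fin n) → ℂ) : act Z (fun J => χ J * s J) = fun J => χ J * act Z s J := by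
  funext J
  unfold act
  rw [Finset.mul_sum]
  refine Finset.sum_congr rfl fun j _ => ?_
  rw [Finset.mul_sum]
  refine Finset.sum_congr rfl fun l _ => ?_
  show Z l (J j) * (χ (Function.update J j l) * s (Function.update J j l)) =
    χ J * (Z l (J j) * s (Function.update J j l))
  by_cases h : c l = c (J j)
  · have h1 : χ (Function.update J j l) = χ J := by
      apply hχ
      intro i
      by_cases hi : i = j
      · subst hi
        rw [Function.update_self]
        exact h
      · rw [Function.update_of_ne hi]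
    rw [h1]
    ring
  · rw [hZ l (J j) h]
    ring

theorem suppS_act (c : Fin n → Fin r) (a : Fin k → Fin r) (Z : Matrix (Fin n) (Fin n) ℂ)
    (hZ : BD c Z) {s : (Fin k → Fin n) → ℂ} (hs : s ∈ suppS c a) : act Z s ∈ suppS c a := by
  have h1 := act_col c Z hZ (pat c a) (fun J J' h => by
    unfold pat
    have : (∀ j, c (J j) = a j) ↔ ∀ j, c (J' j) = a j := by simp only [h]
    simp only [this]) s
  have h2 : (fun J => pat c a J * s J) = s := funext hs
  rw [h2] at h1
  intro J
  exact (congrFun h1 J).symm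

/-- the colour factor -/
def col (c : Fin n → Fin r) (a : Fin k → Fin r) (σ : Fin k → Fin k) (J : Fin k → Fin n) : ℂ :=
  ∏ j with j < σ j, if c (J j) = a j then 1 else 0

theorem prod_split (c : Fin n → Fin r) (a : Fin k → Fin r) (σ : Fin k → Fin k)
    (J : Fin k → Fin n) :
    (∏ j with j < σ j, if J j = J (σ j) ∧ c (J j) = a j then (1 : ℂ) else 0) =
      col c a σ J * dl σ J := by
  unfold dl col
  rw [← Finset.prod_mul_distrib]
  refine Finset.prod_congr rfl fun j _ => ?_
  by_cases h1 : J j = J (σ j) <;> by_cases h2 : c (J j) = a j <;> simp [h1, h2]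

theorem col_conj (c : Fin n → Fin r) (a : Fin k → Fin r) (σ : Fin k → Fin k)
    (J : Fin k → Fin n) : (starRingEnd ℂ) (col c a σ J) = col c a σ J := by
  unfold col
  rw [map_prod]
  refine Finset.prod_congr rfl fun j _ => ?_
  split_ifs <;> simp

theorem gen2_mem {l : ℕ} (c : Fin n → Fin r) (a : Fin k → Fin r) (σ : Fin k → Fin k)
    (hσ : ∀ j, σ (σ j) = j) (hσa : ∀ j, a (σ j) = a j) (u : (Fin k → Fin n) → ℂ)
    (hu : Dep σ u) (hl : 2 * l ≤ (univ.filter fun j => σ j ≠ j).card) :
    (fun J => col c a σ J * (dl σ J * u J)) ∈ insC2 c a l :=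
  Submodule.subset_span ⟨σ, u, hσ, hσa, hl, hu, fun J => by
    show col c a σ J * (dl σ J * u J) = _
    rw [prod_split]
    ring⟩

theorem insC2_act {l : ℕ} (c : Fin n → Fin r) (a : Fin k → Fin r)
    (Z : Matrix (Fin n) (Fin n) ℂ) (hZ : Zᵀ = -Z) (hZc : BD c Z)
    {s : (Fin k → Fin n) → ℂ} (hs : s ∈ insC2 c a l) : act Z s ∈ insC2 c a l := by
  have h : insC2 c a l ≤ (insC2 c a l).comap (actL Z) := by
    conv_lhs => unfold insC2
    rw [Submodule.span_le]
    rintro s ⟨σ, u, hσ, hσa, hl, hu, hs⟩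
    have e : s = fun J => col c a σ J * (dl σ J * u J) := by
      funext J
      rw [hs J, prod_split]
      ring
    show actL Z s ∈ insC2 c a l
    rw [actL_apply, e, act_col c Z hZc (col c a σ) (fun J J' h => by
      unfold col
      refine Finset.prod_congr rfl fun j _ => ?_
      rw [h j]), act_dl Z hZ σ hσ u hu]
    exact gen2_mem c a σ hσ hσa _ (up_dep Z σ u hu) hl
  have := h hs
  rwa [Submodule.mem_comap, actL_apply] at this

theorem insC2_conj {l : ℕ} (c : Fin n → Fin r) (a : Fin k → Fin r)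
    {s : (Fin k → Fin n) → ℂ} (hs : s ∈ insC2 c a l) :
    (fun J => (starRingEnd ℂ) (s J)) ∈ insC2 c a l := by
  unfold insC2 at hs
  induction hs using Submodule.span_induction with
  | mem s h =>
    obtain ⟨σ, u, hσ, hσa, hl, hu, hs⟩ := h
    have e : (fun J => (starRingEnd ℂ) (s J)) =
        fun J => col c a σ J * (dl σ J * (starRingEnd ℂ) (u J)) := by
      funext J
      rw [hs J, prod_split, map_mul, map_mul, col_conj, dl_conj]
      ring
    rw [e]
    exact gen2_mem c a σ hσ hσa _ (fun J J' h => by rw [hu J J' h]) hl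
  | zero =>
    have : (fun J : Fin k → Fin n => (starRingEnd ℂ) ((0 : (Fin k → Fin n) → ℂ) J)) = 0 := by
      funext J; simp
    rw [this]
    exact Submodule.zero_mem _
  | add a b _ _ h1 h2 =>
    have := Submodule.add_mem _ h1 h2
    convert this using 1
    funext J
    simp
  | smul c a _ h1 =>
    have := Submodule.smul_mem _ ((starRingEnd ℂ) c) h1
    convert this using 1
    funext J
    simp

/-- supported insertions -/
def Ia (c : Fin n → Fin r) (a : Fin k → Fin r) (l : ℕ) : Submodule ℂ ((Fin k → Fin n) → ℂ) :=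
  insC2 c a l ⊓ suppS c a

theorem Ia_act {l : ℕ} (c : Fin n → Fin r) (a : Fin k → Fin r)
    (Z : Matrix (Fin n) (Fin n) ℂ) (hZ : Zᵀ = -Z) (hZc : BD c Z)
    {s : (Fin k → Fin n) → ℂ} (hs : s ∈ Ia c a l) : act Z s ∈ Ia c a l :=
  ⟨insC2_act c a Z hZ hZc hs.1, suppS_act c a Z hZc hs.2⟩

theorem Ia_conj {l : ℕ} (c : Fin n → Fin r) (a : Fin k → Fin r)
    {s : (Fin k → Fin n) → ℂ} (hs : s ∈ Ia c a l) :
    (fun J => (starRingEnd ℂ) (s J)) ∈ Ia c a l := by
  refine ⟨insC2_conj c a hs.1, fun J => ?_⟩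
  show pat c a J * (starRingEnd ℂ) (s J) = (starRingEnd ℂ) (s J)
  have h1 := congrArg (starRingEnd ℂ) (hs.2 J)
  rw [map_mul, pat_conj] at h1
  exact h1

theorem conj_compl (I : Submodule ℂ ((Fin k → Fin n) → ℂ))
    (hI : ∀ s ∈ I, (fun J => (starRingEnd ℂ) (s J)) ∈ I) :
    IsCompl I ((Bf n k).orthogonal I) := by
  have key : ∀ x ∈ I, (∀ y ∈ I, Bf n k x y = 0) → x = 0 := by
    intro x hx h
    have h1 := h _ (hI x hx)
    rw [Bf_apply] at h1
    have h2 : ∑ J, Complex.normSq (x J) = 0 := by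
      have h3 : ((∑ J, Complex.normSq (x J) : ℝ) : ℂ) = 0 := by
        rw [← h1]
        push_cast
        refine Finset.sum_congr rfl fun J _ => ?_
        rw [Complex.mul_conj]
      exact_mod_cast h3
    funext J
    have h3 := (Finset.sum_eq_zero_iff_of_nonneg (fun J _ => Complex.normSq_nonneg (x J))).1 h2 J
      (Finset.mem_univ J)
    exact Complex.normSq_eq_zero.1 h3
  have hsymm : ∀ x y, Bf n k x y = Bf n k y x := by
    intro x y
    rw [Bf_apply, Bf_apply]
    refine Finset.sum_congr rfl fun J _ => ?_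
    ring
  refine LinearMap.BilinForm.isCompl_orthogonal_of_restrict_nondegenerate ?_ ⟨?_, ?_⟩
  · intro x y h
    rw [hsymm]
    exact h
  · rintro ⟨x, hx⟩ h
    exact Subtype.ext (key x hx fun y hy => h ⟨y, hy⟩)
  · rintro ⟨x, hx⟩ h
    exact Subtype.ext (key x hx fun y hy => by rw [hsymm]; exact h ⟨y, hy⟩)

theorem orth2_act {l : ℕ} (c : Fin n → Fin r) (a : Fin k → Fin r)
    (Z : Matrix (Fin n) (Fin n) ℂ) (hZ : Zᵀ = -Z) (hZc : BD c Z)
    {s : (Fin k → Fin n) → ℂ} (hs : s ∈ (Bf n k).orthogonal (Ia c a l)) :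
    act Z s ∈ (Bf n k).orthogonal (Ia c a l) := by
  rw [LinearMap.BilinForm.mem_orthogonal_iff] at hs ⊢
  intro t ht
  show Bf n k t (act Z s) = 0
  have h1 := hs _ (Ia_act c a Z hZ hZc ht)
  have h2 : Bf n k (act Z t) s = 0 := h1
  rw [Bf_apply] at h2 ⊢
  rw [adj Z hZ t s] at h2
  exact neg_eq_zero.1 h2

/-- the colour condition for a contraction which does not vanish -/
theorem cn_col {m : ℕ} (c : Fin n → Fin r) (a : Fin k → Fin r) (σ : Fin k → Fin k)
    (hσ : ∀ j, σ (σ j) = j) (ρ : Fin m → Fin k) (b : (Fin k → Fin n) → ℂ) (hb : Supp c a b)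
    (K : Fin m → Fin n) (h : cn σ ρ b K ≠ 0) :
    (∀ j, a (σ j) = a j) ∧ ∀ i, c (K i) = a (ρ i) := by
  rw [cn_apply] at h
  obtain ⟨J, _, hJ⟩ := Finset.exists_ne_zero_of_sum_ne_zero h
  have h1 : dl σ J ≠ 0 := left_ne_zero_of_mul (left_ne_zero_of_mul hJ)
  have h2 : ind ρ K J ≠ 0 := right_ne_zero_of_mul (left_ne_zero_of_mul hJ)
  have h3 : b J ≠ 0 := right_ne_zero_of_mul hJ
  rw [dl_eq σ hσ] at h1
  have h4 : ∀ j, J (σ j) = J j := by
    by_contra h5
    exact h1 (if_neg h5)
  have h6 : ∀ i, J (ρ i) = K i := by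
    by_contra h5
    exact h2 (if_neg h5)
  have h7 := hb J h3
  refine ⟨fun j => ?_, fun i => ?_⟩
  · rw [← h7, h4, h7]
  · rw [← h6, h7]

theorem cn_orth2 {m l : ℕ} (c : Fin n → Fin r) (a : Fin k → Fin r) (σ : Fin k → Fin k)
    (hσ : ∀ j, σ (σ j) = j) (hσa : ∀ j, a (σ j) = a j) (ρ : Fin m → Fin k)
    (hfix : ∀ j, σ j = j ↔ ∃ i, ρ i = j) (b : (Fin k → Fin n) → ℂ) (hbs : Supp c a b)
    (hl : 2 * l ≤ (univ.filter fun j => σ j ≠ j).card)
    (hb : b ∈ (Bf n k).orthogonal (Ia c a l)) : cn σ ρ b = 0 := by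
  classical
  funext K
  rw [cn_apply]
  rw [LinearMap.BilinForm.mem_orthogonal_iff] at hb
  set fp : (Fin k → Fin n) → ℂ := fun J => if ∀ j, σ j = j → c (J j) = a j then 1 else 0 with hfp
  have key : ∀ J, pat c a J * dl σ J = col c a σ J * (dl σ J * fp J) := by
    intro J
    by_cases h0 : ∀ j, J (σ j) = J j
    · have h1 : dl σ J = 1 := by rw [dl_eq σ hσ, if_pos h0]
      rw [h1, mul_one, one_mul]
      by_cases h2 : ∀ j, c (J j) = a j
      · have h3 : pat c a J = 1 := if_pos h2
        have h4 : fp J = 1 := if_pos fun j _ => h2 j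
        have h5 : col c a σ J = 1 := Finset.prod_eq_one fun j _ => if_pos (h2 j)
        rw [h3, h4, h5, one_mul]
      · have h3 : pat c a J = 0 := if_neg h2
        rw [h3]
        push Not at h2
        obtain ⟨j, hj⟩ := h2
        rcases lt_trichotomy j (σ j) with h6 | h6 | h6
        · have h5 : col c a σ J = 0 :=
            Finset.prod_eq_zero (Finset.mem_filter.2 ⟨Finset.mem_univ j, h6⟩) (if_neg hj)
          rw [h5, zero_mul]
        · have h4 : fp J = 0 := if_neg fun h => hj (h j h6.symm)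
          rw [h4, mul_zero]
        · have h5 : col c a σ J = 0 :=
            Finset.prod_eq_zero (i := σ j) (Finset.mem_filter.2 ⟨Finset.mem_univ _, by
              rw [hσ]; exact h6⟩) (if_neg (by rw [h0, hσa]; exact hj))
          rw [h5, zero_mul]
    · have h1 : dl σ J = 0 := by rw [dl_eq σ hσ, if_neg h0]
      rw [h1]
      ring
  have hmem : (fun J => pat c a J * (dl σ J * ind ρ K J)) ∈ Ia c a l := by
    refine ⟨?_, fun J => ?_⟩
    · have e : (fun J => pat c a J * (dl σ J * ind ρ K J)) =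
          fun J => col c a σ J * (dl σ J * (fp J * ind ρ K J)) := by
        funext J
        have := key J
        linear_combination ind ρ K J * this
      rw [e]
      refine gen2_mem c a σ hσ hσa _ ?_ hl
      intro J J' h
      show fp J * ind ρ K J = fp J' * ind ρ K J'
      rw [ind_dep σ ρ hfix K J J' h]
      have h1 : (∀ j, σ j = j → c (J j) = a j) ↔ ∀ j, σ j = j → c (J' j) = a j := by
        constructor
        · intro h2 j hj
          rw [← h j hj]
          exact h2 j hj
        · intro h2 j hj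
          rw [h j hj]
          exact h2 j hj
      simp only [hfp, h1]
    · show pat c a J * (pat c a J * (dl σ J * ind ρ K J)) = pat c a J * (dl σ J * ind ρ K J)
      rw [← mul_assoc, pat_pat]
  have h1 : Bf n k (fun J => pat c a J * (dl σ J * ind ρ K J)) b = 0 := hb _ hmem
  rw [Bf_apply] at h1
  rw [Pi.zero_apply, ← h1]
  refine Finset.sum_congr rfl fun J _ => ?_
  have h2 := (supp_iff c a b).1 hbs J
  show dl σ J * ind ρ K J * b J = pat c a J * (dl σ J * ind ρ K J) * b J
  linear_combination (-(dl σ J * ind ρ K J)) * h2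

theorem ns_le {m : ℕ} (a : Fin k → Fin r) (ρ : Fin m → Fin k) (hρ : Function.Injective ρ)
    (i : Fin r) : ns (fun j => a (ρ j)) i ≤ ns a i := by
  unfold ns
  refine Finset.card_le_card_of_injOn ρ ?_ (fun x _ y _ h => hρ h)
  intro j hj
  have h1 := (Finset.mem_filter.1 (Finset.mem_coe.1 hj)).2
  exact Finset.mem_coe.2 (Finset.mem_filter.2 ⟨Finset.mem_univ _, h1⟩)

theorem g1p : S_g2p → S_g1p := by
  intro hg2 n R k l c a p X hX hXX hXc htr hns M hMs hM hE
  by_contra hnot
  obtain ⟨m, hmM, hmI0⟩ := SetLike.not_le_iff_exists.1 hnot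
  have hmI : m ∉ Ia c a l := fun h => hmI0 h.1
  have hcompl := conj_compl (Ia c a l) (fun s hs => Ia_conj c a hs)
  set O : Submodule ℂ ((Fin k → Fin n) → ℂ) := (Bf n k).orthogonal (Ia c a l) with hO
  set M' : Submodule ℂ ((Fin k → Fin n) → ℂ) := O ⊓ (M ⊔ Ia c a l) with hM'
  have hM's : ∀ s ∈ M', Supp c a s := by
    intro s hs
    rw [supp_iff]
    have h1 : M ⊔ Ia c a l ≤ suppS c a := by
      refine sup_le ?_ inf_le_right
      intro t ht
      exact (supp_iff c a t).1 (hMs t ht)
    exact h1 hs.2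
  -- stable
  have hst : ∀ Z : Matrix (Fin n) (Fin n) ℂ, Zᵀ = -Z → BD c Z → ∀ s ∈ M', actL Z s ∈ M' := by
    intro Z hZ hZc s hs
    rw [hM', Submodule.mem_inf] at hs ⊢
    refine ⟨by rw [actL_apply]; exact orth2_act c a Z hZ hZc hs.1, ?_⟩
    obtain ⟨x, hx, y, hy, rfl⟩ := Submodule.mem_sup.1 hs.2
    rw [map_add, actL_apply, actL_apply]
    exact Submodule.add_mem_sup (hM Z hZ hZc x hx) (Ia_act c a Z hZ hZc hy)
  -- nonzero
  have hne : ∃ b ∈ M', b ≠ 0 := by
    have htop : m ∈ Ia c a l ⊔ O := by rw [hcompl.sup_eq_top]; trivial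
    obtain ⟨i, hi, o, ho, hio⟩ := Submodule.mem_sup.1 htop
    refine ⟨o, ⟨ho, ?_⟩, ?_⟩
    · have : o = m - i := by rw [← hio]; abel
      rw [this]
      exact Submodule.sub_mem _ (Submodule.mem_sup_left hmM) (Submodule.mem_sup_right hi)
    · rintro rfl
      apply hmI
      rw [← hio, add_zero]
      exact hi
  let Q : ℕ → Prop := fun l' => ∃ (r : ℕ) (σ : Fin k → Fin k) (ρ : Fin r → Fin k),
    r + 2 * l' = k ∧ (∀ j, σ (σ j) = j) ∧ Function.Injective ρ ∧
      (∀ j, σ j = j ↔ ∃ i, ρ i = j) ∧ ∃ b ∈ M', cn σ ρ b ≠ 0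
  have hQ0 : Q 0 := by
    obtain ⟨b, hb, hb0⟩ := hne
    refine ⟨k, id, id, by ring, fun _ => rfl, Function.injective_id,
      fun j => ⟨fun _ => ⟨j, rfl⟩, fun _ => rfl⟩, b, hb, ?_⟩
    intro h
    apply hb0
    funext K
    have h1 := congrFun h K
    rw [cn_apply, Finset.sum_eq_single K] at h1
    · simpa [dl, ind] using h1
    · intro J _ hJ
      have : ind (id : Fin k → Fin k) K J = 0 := by
        unfold ind
        rw [if_neg]
        intro h2
        exact hJ (funext h2)
      rw [this]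
      ring
    · intro h2
      exact absurd (Finset.mem_univ _) h2
  have hex : ∃ l', Q l' ∧ ¬ Q (l' + 1) := by
    by_contra hc
    push Not at hc
    have hall : ∀ l', Q l' := by
      intro l'
      induction l' with
      | zero => exact hQ0
      | succ l' ih => exact hc l' ih
    obtain ⟨r, _, _, h, _⟩ := hall (k + 1)
    omega
  obtain ⟨l', ⟨r, σ, ρ, hr, hσ, hρ, hfix, b, hb, hb0⟩, hnQ⟩ := hex
  have hσa : ∀ j, a (σ j) = a j := by
    obtain ⟨K, hK⟩ := Function.ne_iff.1 hb0
    exact (cn_col c a σ hσ ρ b (hM's b hb) K hK).1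
  have hl' : l' < l := by
    by_contra hc
    push Not at hc
    apply hb0
    have hc1 : (univ.filter fun j => σ j = j).card = r := by
      have : (univ.filter fun j => σ j = j) = univ.image ρ := by
        ext j
        rw [Finset.mem_filter, Finset.mem_image, hfix]
        simp
      rw [this, Finset.card_image_of_injective _ hρ, Finset.card_univ, Fintype.card_fin]
    have hc2 := Finset.card_filter_add_card_filter_not (s := (univ : Finset (Fin k)))
      (fun j => σ j = j)
    rw [Finset.card_univ, Fintype.card_fin] at hc2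
    have hc3 : 2 * l ≤ (univ.filter fun j => σ j ≠ j).card := by
      have : (univ.filter fun j => ¬ σ j = j).card = (univ.filter fun j => σ j ≠ j).card := rfl
      omega
    exact cn_orth2 c a σ hσ hσa ρ hfix b (hM's b hb) hc3 hb.1
  obtain ⟨s, ⟨d, hdM, hds⟩, hs0, hXs⟩ := hg2 n R r c (fun j => a (ρ j)) p X hX hXX hXc htr
    (fun i => by
      have h1 := ns_le a ρ hρ i
      rcases hns i with ⟨h2, h3⟩ | h2
      · left
        exact ⟨by omega, by omega⟩
      · right
        omega)
    (M'.map (cn σ ρ))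
    (by
      rintro _ ⟨d, hd, rfl⟩ K hK i
      exact (cn_col c a σ hσ ρ d (hM's d hd) K hK).2 i)
    (by
      rintro Z hZ hZc _ ⟨d, hd, rfl⟩
      refine ⟨act Z d, ?_, cn_act Z hZ σ hσ ρ hρ hfix d⟩
      have := hst Z hZ hZc d hd
      rwa [actL_apply] at this)
    (by
      rintro _ ⟨d, hd, rfl⟩ i i' hii K
      by_contra hne'
      obtain ⟨r', σ', ρ', h1, h2, h3, h4, h5⟩ := more σ hσ ρ hρ hfix d i i' hii K hne'
      exact hnQ ⟨r', σ', ρ', by omega, h2, h3, h4, d, hd, h5⟩)
    (by
      intro h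
      apply hb0
      have h1 : cn σ ρ b ∈ M'.map (cn σ ρ) := ⟨b, hb, rfl⟩
      rw [h] at h1
      exact (Submodule.mem_bot _).1 h1)
  -- the polynomial
  set P0 : Polynomial ℂ := ∏ e ∈ (Finset.Icc (-(k : ℤ)) k).erase (r : ℤ),
    (Polynomial.X - Polynomial.C (e : ℂ)) with hP0
  have hmul : (Polynomial.X - Polynomial.C (r : ℂ)) * P0 = pp k := by
    have hmem : (r : ℤ) ∈ Finset.Icc (-(k : ℤ)) k := Finset.mem_Icc.2 ⟨by omega, by omega⟩
    have := Finset.mul_prod_erase (Finset.Icc (-(k : ℤ)) k)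
      (fun e : ℤ => (Polynomial.X - Polynomial.C (e : ℂ) : Polynomial ℂ)) hmem
    unfold pp
    rw [← this]
    push_cast
    rfl
  have hP0r : P0.eval (r : ℂ) ≠ 0 := by
    rw [hP0, Polynomial.eval_prod, Finset.prod_ne_zero_iff]
    intro e he h
    rw [Finset.mem_erase] at he
    apply he.1
    simp only [Polynomial.eval_sub, Polynomial.eval_X, Polynomial.eval_C] at h
    have h1 : (r : ℂ) = (e : ℂ) := sub_eq_zero.1 h
    exact_mod_cast h1.symm
  set P : Polynomial ℂ := Polynomial.C (P0.eval (r : ℂ))⁻¹ * P0 with hP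
  have hPr : P.eval (r : ℂ) = 1 := by
    rw [hP, Polynomial.eval_mul, Polynomial.eval_C, inv_mul_cancel₀ hP0r]
  have heig : ∀ v : (Fin k → Fin n) → ℂ,
      actL X (Polynomial.aeval (actL X) P v) = (r : ℂ) • Polynomial.aeval (actL X) P v := by
    intro v
    have h1 : Polynomial.aeval (actL (k := k) X)
        ((Polynomial.X - Polynomial.C (r : ℂ)) * P) = 0 := by
      have : (Polynomial.X - Polynomial.C (r : ℂ)) * P =
          Polynomial.C (P0.eval (r : ℂ))⁻¹ * pp k := by
        rw [← hmul, hP]; ring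
      rw [this, map_mul, actL_pp X hXX, mul_zero]
    have h2 := congrArg (fun T : Module.End ℂ ((Fin k → Fin n) → ℂ) => T v) h1
    simp only [map_mul, map_sub, Polynomial.aeval_X, Polynomial.aeval_C] at h2
    rw [Module.End.mul_apply, LinearMap.sub_apply, Module.algebraMap_end_apply] at h2
    exact sub_eq_zero.1 h2
  set e := Polynomial.aeval (actL X) P d with he
  have heM : e ∈ M' := aeval_mem _ M' (hst X hX hXc) P hdM
  have hes : cn σ ρ e = s := by
    rw [he, aeval_inter (actL X) (actL X) (cn σ ρ)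
      (fun v => by rw [actL_apply, actL_apply, cn_act X hX σ hσ ρ hρ hfix]) P d, hds,
      aeval_eig (actL X) (r : ℂ) s (by rw [actL_apply, hXs]) P, hPr, one_smul]
  have hee : Polynomial.aeval (actL X) P e = e := by
    rw [aeval_eig (actL X) (r : ℂ) e (heig d) P, hPr, one_smul]
  obtain ⟨x, hx, i, hi, hxi⟩ := Submodule.mem_sup.1 heM.2
  have hx1 : Polynomial.aeval (actL X) P x ∈ M :=
    aeval_mem _ M (fun v hv => by rw [actL_apply]; exact hM X hX hXc v hv) P hx
  have hi1 : Polynomial.aeval (actL X) P i ∈ Ia c a l :=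
    aeval_mem _ _ (fun v hv => by rw [actL_apply]; exact Ia_act c a X hX hXc hv) P hi
  have hx0 : Polynomial.aeval (actL X) P x = 0 := by
    refine hE (r : ℤ) ?_ _ hx1 ?_
    · rw [abs_of_nonneg (by positivity)]
      omega
    · rw [← actL_apply, heig]
      push_cast
      rfl
  have heI : e ∈ Ia c a l := by
    rw [← hee, ← hxi, map_add, hx0, zero_add]
    exact hi1
  have he0 : e = 0 := Submodule.disjoint_def.1 hcompl.disjoint e heI heM.1
  apply hs0
  rw [← hes, he0, map_zero]

end

end Pool.Agent.W108.PG
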